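import Pool.Agent.W523.BN.Final

/-!
# Loci of `g^r_d`'s contained in loci of nets: the answer to Q1 is negative

For all integers `r ≥ 3`, `d ≥ 2r` and `g > (d-1)^2`, every curve of genus `g` with a `g^r_d` has a
`g^2_(d-2r+4)`, the locus `M^r_{g,d}` is not empty, and `d-2r+4 < d-2r+2+⌊(r+3)/2⌋`. So the
non-containment asked for fails for every genus `g ≥ 26`.

Idea: a curve `C` whose function field is generated over `ℂ(x)` by `y`, with `x` and `y` of degrees at
most `d`, has genus at most `(d-1)^2`. So for `g > (d-1)^2` the map given by a `g^r_d` is not birational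
onto its image: it factors through a covering of degree `k ≥ 2`. A section vanishing at a point vanishes on
its whole fibre, so imposing `r-2` general points lowers the dimension by at most `r-2` and the degree by
`k (r-2) ≥ 2 (r-2)`.
-/

set_option autoImplicit false

open Pool.Agent.W523.BN

namespace Pool.Agent.Results.MP_54820f_ag.Disproof

/-- For all integers `g, r, d` with `r ≥ 3`, `d ≥ 2r` and `g > (d-1)^2`, the number `e = d - 2r + 4`
satisfies all the conditions of the question and `M^r_{g,d}` is nonempty and contained in `M^2_{g,e}`.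
Hence there is no `g₀` as in the question. -/
theorem result :
    (∀ g r d : ℤ, 3 ≤ r → 2 * r ≤ d → (d - 1) ^ 2 < g →
      (d ≤ g - 1 ∧ d - 2 * r + 4 ≤ g - 1 ∧ rho g r d < 0 ∧ rho g 2 (d - 2 * r + 4) < 0 ∧
        d - 2 * r + 4 < d - 2 * r + 2 + (r + 3) / 2) ∧
      (locus g r d).Nonempty ∧ locus g r d ⊆ locus g 2 (d - 2 * r + 4)) ∧
    ¬ ∃ g₀ : ℤ, ∀ g : ℤ, g₀ ≤ g → ∀ r d e : ℤ, 3 ≤ r → d ≤ g - 1 → e ≤ g - 1 →
      rho g r d < 0 → rho g 2 e < 0 → e < d - 2 * r + 2 + (r + 3) / 2 →
      ¬ locus g r d ⊆ locus g 2 e := by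
  have key : ∀ g r d : ℤ, 3 ≤ r → 2 * r ≤ d → (d - 1) ^ 2 < g →
      (d ≤ g - 1 ∧ d - 2 * r + 4 ≤ g - 1 ∧ rho g r d < 0 ∧ rho g 2 (d - 2 * r + 4) < 0 ∧
        d - 2 * r + 4 < d - 2 * r + 2 + (r + 3) / 2) ∧
      (locus g r d).Nonempty ∧ locus g r d ⊆ locus g 2 (d - 2 * r + 4) := by
    intro g r d hr hd hg
    have h1 : d + 1 ≤ g := by nlinarith
    refine ⟨⟨by omega, by omega, ?_, ?_, by omega⟩, locus_nonempty (by omega) (by omega) hd, ?_⟩
    · unfold rho
      have h2 : (r + 1) * (d - r) < r * g := by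
        have h3 : (r + 1) * (d - r) ≤ r * (d - 1) ^ 2 := by nlinarith
        have h4 : r * (d - 1) ^ 2 < r * g := by nlinarith
        linarith
      nlinarith
    · unfold rho
      nlinarith
    · have h2 := locus_subset (g := g) (r := r) (s := 2) (d := d) (by norm_num) (by omega) hg
      have h3 : d - 2 * (r - 2) = d - 2 * r + 4 := by ring
      rwa [h3] at h2
  refine ⟨key, ?_⟩
  rintro ⟨g₀, h⟩
  obtain ⟨⟨h1, h2, h3, h4, h5⟩, -, h6⟩ := key (max g₀ 26) 3 6 (by norm_num) (by norm_num)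
    (by norm_num)
  exact h (max g₀ 26) (le_max_left _ _) 3 6 _ (by norm_num) h1 h2 h3 h4 h5 h6

end Pool.Agent.Results.MP_54820f_ag.Disproof
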